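import Mathlib

set_option autoImplicit false
open LaurentPolynomial Filter

namespace Pool.Agent.H.MP_f5330b_al

abbrev R := LaurentPolynomial (ZMod 2)

variable {D : Type} [AddCommGroup D] {l : R →+ D} {q : R}

@[ext] structure E (l : R →+ D) (q : R) where
  v : Fin 3 → R
  c : D
  n : ℤ

noncomputable def bt (l : R →+ D) (q : R) (v w : Fin 3 → R) : D := l ((v 0 + q * v 1) * invert (w 2))

theorem TT (a : ℤ) : (T a * T (-a) : R) = 1 := by rw [← T_add]; simp

theorem bt_T (a : ℤ) (v w : Fin 3 → R) : bt l q ((T a : R) • v) ((T a : R) • w) = bt l q v w := by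
  simp only [bt, Pi.smul_apply, smul_eq_mul, map_mul, invert_T]
  congr 1
  linear_combination ((v 0 + q * v 1) * invert (w 2)) * TT a

theorem bt_l (u v w : Fin 3 → R) : bt l q (u + v) w = bt l q u w + bt l q v w := by
  simp only [bt, Pi.add_apply, ← map_add]; congr 1; ring

theorem bt_r (u v w : Fin 3 → R) : bt l q u (v + w) = bt l q u v + bt l q u w := by
  simp only [bt, Pi.add_apply, map_add invert, ← map_add l]; congr 1; ring

@[simp] theorem bt_0l (w : Fin 3 → R) : bt l q 0 w = 0 := by simp [bt]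
@[simp] theorem bt_0r (w : Fin 3 → R) : bt l q w 0 = 0 := by simp [bt]

noncomputable instance : Mul (E l q) := ⟨fun x y => ⟨x.v + (T x.n : R) • y.v, x.c + y.c + bt l q x.v ((T x.n : R) • y.v), x.n + y.n⟩⟩
noncomputable instance : One (E l q) := ⟨⟨0, 0, 0⟩⟩
noncomputable instance : Inv (E l q) := ⟨fun x => ⟨-((T (-x.n) : R) • x.v), -x.c + bt l q x.v x.v, -x.n⟩⟩
@[simp] theorem mul_v (x y : E l q) : (x * y).v = x.v + (T x.n : R) • y.v := rfl
@[simp] theorem mul_c (x y : E l q) : (x * y).c = x.c + y.c + bt l q x.v ((T x.n : R) • y.v) := rfl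
@[simp] theorem mul_n (x y : E l q) : (x * y).n = x.n + y.n := rfl
@[simp] theorem one_v : (1 : E l q).v = 0 := rfl
@[simp] theorem one_c : (1 : E l q).c = 0 := rfl
@[simp] theorem one_n : (1 : E l q).n = 0 := rfl
@[simp] theorem inv_v (x : E l q) : x⁻¹.v = -((T (-x.n) : R) • x.v) := rfl
@[simp] theorem inv_c (x : E l q) : x⁻¹.c = -x.c + bt l q x.v x.v := rfl
@[simp] theorem inv_n (x : E l q) : x⁻¹.n = -x.n := rfl

noncomputable instance : Group (E l q) := Group.ofLeftAxioms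
  (fun x y z => by
    ext1
    · simp only [mul_v, mul_n, T_add, mul_smul, smul_add, add_assoc]
    · simp only [mul_c, mul_v, mul_n, T_add, mul_smul, smul_add, bt_l, bt_r, bt_T]; abel
    · simp [add_assoc])
  (fun x => by ext1 <;> simp)
  (fun x => by
    ext1
    · simp
    · have := bt_l (l := l) (q := q) (-((T (-x.n) : R) • x.v)) ((T (-x.n) : R) • x.v) ((T (-x.n) : R) • x.v)
      rw [neg_add_cancel, bt_0l, bt_T] at this
      simp only [mul_c, inv_c, inv_v, inv_n, one_c, this]; abel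
    · simp)

def nn : E l q →* Multiplicative ℤ where
  toFun x := .ofAdd x.n
  map_one' := rfl
  map_mul' _ _ := rfl

@[simp] theorem zpow_n (x : E l q) (k : ℤ) : (x ^ k).n = k * x.n := by
  simpa [nn] using congrArg Multiplicative.toAdd (map_zpow nn x k)

noncomputable def gn (l : R →+ D) (q : R) : Fin 4 → E l q := ![⟨Pi.single 0 1, 0, 0⟩, ⟨Pi.single 1 1, 0, 0⟩, ⟨Pi.single 2 1, 0, 0⟩, ⟨0, 0, 1⟩]

theorem t_pow (k : ℤ) : gn l q 3 ^ k = ⟨0, 0, k⟩ := by
  induction k with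
  | zero => rfl
  | succ k ih => rw [zpow_add_one, ih]; ext1 <;> simp [gn]
  | pred k ih => rw [zpow_sub_one, ih]; ext1 <;> simp [gn, sub_eq_add_neg]

theorem conj (k : ℤ) (v : Fin 3 → R) : gn l q 3 ^ k * ⟨v, 0, 0⟩ * (gn l q 3 ^ k)⁻¹ = ⟨(T k : R) • v, 0, 0⟩ := by
  rw [t_pow]; ext1 <;> simp

theorem gen (K : Subgroup (E l q)) (h : ∀ i, gn l q i ∈ K) (hc : ∀ c, ⟨0, c, 0⟩ ∈ K) : K = ⊤ := by
  have a : ∀ v c c', (⟨v, c, 0⟩ : E l q) ∈ K → (⟨v, c', 0⟩ : E l q) ∈ K := fun v c c' a => by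
    convert K.mul_mem (hc (c' - c)) a using 1
    ext1 <;> simp
  have m : ∀ v w, (⟨v, 0, 0⟩ : E l q) ∈ K → (⟨w, 0, 0⟩ : E l q) ∈ K → (⟨v + w, 0, 0⟩ : E l q) ∈ K := fun v w i j => by
    refine a _ (bt l q v w) _ ?_
    convert K.mul_mem i j using 1
    ext1 <;> simp
  have b : ∀ v, (⟨v, 0, 0⟩ : E l q) ∈ K := fun v => by
    refine Pi.single_induction (fun v => (⟨v, 0, 0⟩ : E l q) ∈ K) v (hc 0) (fun _ _ => m _ _) fun i r => ?_
    induction r using LaurentPolynomial.induction_on' with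
    | add p r i j => rw [Pi.single_add]; exact m _ _ i j
    | C_mul_T k z =>
      have : (⟨Pi.single i 1, 0, 0⟩ : E l q) ∈ K := by
        fin_cases i
        exacts [h 0, h 1, h 2]
      have := K.mul_mem (K.mul_mem (K.zpow_mem (h 3) k) this) (K.inv_mem (K.zpow_mem (h 3) k))
      rw [conj, ← Pi.single_smul] at this
      rcases (by decide : ∀ z : ZMod 2, z = 0 ∨ z = 1) z with rfl | rfl
      · simpa using hc 0
      · simpa using this
  refine eq_top_iff.2 fun x _ => ?_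
  convert K.mul_mem (a _ _ x.c (b x.v)) (K.zpow_mem (h 3) x.n) using 1
  rw [t_pow]; ext1 <;> simp

end Pool.Agent.H.MP_f5330b_al
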