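import Pool.Agent.H.MP_f5330b_al.A

set_option autoImplicit false
open LaurentPolynomial Filter
open scoped commutatorElement

namespace Pool.Agent.H.MP_f5330b_al

abbrev Q := E (0 : R →+ Unit) 0

theorem hext {x y : Q} (a : x.v = y.v) (b : x.n = y.n) : x = y := E.ext a rfl b

theorem gnH : Function.Surjective (FreeGroup.lift (gn (0 : R →+ Unit) 0)) :=
  MonoidHom.range_eq_top.1 (gen _ (fun i => ⟨.of i, by simp⟩) fun _ => Subgroup.one_mem _)

theorem sq (i : Fin 3) : gn (0 : R →+ Unit) 0 i.castSucc ^ 2 = 1 := by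
  have : (1 + 1 : R) = 0 := by
    rw [← two_smul (ZMod 2), show (2 : ZMod 2) = 0 from rfl, zero_smul]
  fin_cases i <;> refine hext ?_ (by simp [gn, pow_two]) <;> simp [gn, pow_two, ← Pi.single_add, this]

theorem rigid (ψ : FreeGroup (Fin 4) →* Q) (hs : Function.Surjective ψ) (h : ∀ i : Fin 3, ψ (.of i.castSucc) ^ 2 = 1) :
    ψ.ker = (FreeGroup.lift (gn (0 : R →+ Unit) 0)).ker := by
  have a : ∀ i : Fin 3, (ψ (.of i.castSucc)).n = 0 := fun i => by
    have := congrArg E.n (h i)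
    simp only [pow_two, mul_n, one_n] at this
    omega
  set s := ψ (.of 3) with hs'
  have k : s.n ∣ 1 := by
    obtain ⟨w, b⟩ := hs ⟨0, 0, 1⟩
    have : ∀ w, s.n ∣ (ψ w).n := fun w => by
      induction w with
      | C1 => simp
      | of i =>
        fin_cases i
        exacts [(a 0).symm ▸ dvd_zero _, (a 1).symm ▸ dvd_zero _, (a 2).symm ▸ dvd_zero _, dvd_rfl]
      | inv_of _ i => simpa using i
      | mul _ _ i j => simpa using i.add j
    simpa [b] using this w
  obtain ⟨σ, hσ⟩ : ∃ σ : R ≃+* R, ∀ j, σ (T j) = T (j * s.n) := by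
    rcases Int.isUnit_iff.1 (isUnit_of_dvd_one k) with e | e
    · exact ⟨.refl _, by simp [e]⟩
    · exact ⟨invert.toRingEquiv, by simp [e]⟩
  have k0 : s.n ≠ 0 := fun e => by simp [e] at k
  let L : (Fin 3 → R) →ₗ[R] (Fin 3 → R) := Fintype.linearCombination R fun i => (ψ (.of i.castSucc)).v
  let θ : Q →* Q := MonoidHom.mk' (fun x => ⟨L (σ ∘ x.v), 0, 0⟩ * s ^ x.n) fun x y => by
    have : σ ∘ (x.v + (T x.n : R) • y.v) = σ ∘ x.v + (T (x.n * s.n) : R) • σ ∘ y.v := by
      ext1; simp only [Function.comp, Pi.add_apply, Pi.smul_apply, smul_eq_mul, map_add, map_mul, hσ]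
    refine hext ?_ (by simp [add_mul])
    simp only [mul_v, mul_n, this, map_add, map_smul, zpow_add, zpow_n, T_zero, one_smul, zero_add, smul_add]
    abel
  have e : θ.comp (FreeGroup.lift (gn 0 0)) = ψ := FreeGroup.ext_hom _ _ fun i => by
    have : ∀ i : Fin 3, θ ⟨Pi.single i 1, 0, 0⟩ = ψ (.of i.castSucc) := fun i => by
      have : σ ∘ Pi.single i (1 : R) = Pi.single i 1 := by
        ext1 j; by_cases j = i <;> simp [*]
      refine hext ?_ (by simp [θ, a])
      simp [θ, this, L]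
    rw [MonoidHom.comp_apply, FreeGroup.lift_apply_of]
    fin_cases i
    exacts [this 0, this 1, this 2, hext (by simp [θ, gn, s]) (by simp [θ, gn, s])]
  have n : ∀ x, (θ x).n = x.n * s.n := fun x => by simp [θ]
  have i : Function.Injective L := OrzechProperty.injective_of_surjective_endomorphism L fun v => by
    obtain ⟨w, b⟩ := hs ⟨v, 0, 0⟩
    rw [← e, MonoidHom.comp_apply] at b
    generalize FreeGroup.lift (gn (0 : R →+ Unit) 0) w = x at b
    have := n x
    rw [b] at this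
    have := (mul_eq_zero.1 this.symm).resolve_right k0
    exact ⟨σ ∘ x.v, by simpa [θ, this] using congrArg E.v b⟩
  rw [← e, ← MonoidHom.comap_ker, (MonoidHom.ker_eq_bot_iff θ).2, MonoidHom.comap_bot]
  refine (injective_iff_map_eq_one θ).2 fun x b => ?_
  have := n x
  rw [b] at this
  have := (mul_eq_zero.1 this.symm).resolve_right k0
  refine hext (funext fun j => σ.injective ?_) this
  simpa using congrFun (i (a₁ := σ ∘ x.v) (a₂ := 0) (by simpa [θ, this] using congrArg E.v b)) j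

noncomputable def l0 : R →+ ZMod 2 := AddMonoidHom.mk' (fun r => r.coeff 0) fun _ _ => rfl

theorem ev (y : R) : ∀ᶠ N : ℤ in cofinite, l0 (T N * y) = 0 := by
  induction y using LaurentPolynomial.induction_on' with
  | add p r i j => filter_upwards [i, j] with N i j; rw [mul_add, map_add, i, j, add_zero]
  | C_mul_T k z =>
    filter_upwards [eventually_cofinite_ne (-k)] with N a
    rw [mul_left_comm, ← T_add, ← single_eq_C_mul_T]
    exact Finsupp.single_eq_of_ne (by omega)

theorem ev' (v w : Fin 3 → R) : ∀ᶠ N : ℤ in cofinite, bt l0 (T N) v w = bt l0 0 v w := by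
  filter_upwards [ev (v 1 * invert (w 2))] with N a
  simp only [bt, add_mul, map_add, mul_assoc, a, zero_mul, map_zero]

noncomputable def tr (q : R) (x : E l0 0) : E l0 q := ⟨x.v, x.c, x.n⟩

theorem ev'' {ι : Type} (φ : FreeGroup ι →* E l0 0) (w : FreeGroup ι) :
    ∀ᶠ N : ℤ in cofinite, FreeGroup.lift (fun i => tr (T N) (φ (.of i))) w = tr (T N) (φ w) := by
  induction w with
  | C1 => exact .of_forall fun _ => by rw [map_one, map_one]; rfl
  | of i => exact .of_forall fun _ => FreeGroup.lift_apply_of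
  | inv_of x _ =>
    filter_upwards [ev' (φ (.of x)).v (φ (.of x)).v] with N a
    rw [map_inv, map_inv, FreeGroup.lift_apply_of]
    ext1 <;> simp [tr, a]
  | mul x y i j =>
    filter_upwards [i, j, ev' (φ x).v ((T (φ x).n : R) • (φ y).v)] with N i j a
    rw [map_mul, map_mul, i, j]
    ext1 <;> simp [tr, a]

noncomputable def iso (q : R) : E l0 q ≃* E l0 0 where
  toFun x := ⟨![x.v 0 + q * x.v 1, x.v 1, x.v 2], x.c, x.n⟩
  invFun x := ⟨![x.v 0 - q * x.v 1, x.v 1, x.v 2], x.c, x.n⟩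
  left_inv x := by
    ext1 <;> try rfl
    ext1 i; fin_cases i <;> simp
  right_inv x := by
    ext1 <;> try rfl
    ext1 i; fin_cases i <;> simp
  map_mul' x y := by
    ext1
    · ext1 i; fin_cases i <;> simp; ring
    · simp [bt]
    · rfl

theorem cm (q : R) (N : ℤ) : ⁅gn l0 q 1, gn l0 q 3 ^ N * gn l0 q 2 * (gn l0 q 3 ^ N)⁻¹⁆ = ⟨0, l0 (q * T (-N)), 0⟩ := by
  rw [show gn l0 q 2 = ⟨Pi.single 2 1, 0, 0⟩ from rfl, conj, commutatorElement_def, mul_inv_eq_iff_eq_mul, mul_inv_eq_iff_eq_mul]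
  ext1 <;> simp [gn, bt, add_comm]

theorem cond {ι : Type} (φ : FreeGroup ι →* E l0 0) (hs : Function.Surjective φ) (F : Finset (FreeGroup ι)) :
    ∃ ψ : FreeGroup ι →* E l0 0, Function.Surjective ψ ∧ ψ.ker ≠ φ.ker ∧ ∀ w ∈ F, (w ∈ ψ.ker ↔ w ∈ φ.ker) := by
  choose g hg using hs
  obtain ⟨N, a, b, c⟩ := (((eventually_all_finset F).2 fun w _ => ev'' φ w).and ((eventually_all.2 fun i => ev'' φ (g (gn l0 0 i))).and
    (eventually_all.2 fun c => ev'' φ (g ⟨0, c, 0⟩)))).exists
  simp only [hg] at b c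
  set ψ := FreeGroup.lift fun i => tr (T N) (φ (.of i))
  have b : ∀ i, ψ (g (gn l0 0 i)) = gn l0 (T N) i := fun i => by rw [b]; fin_cases i <;> rfl
  have k : ((iso (T N)).toMonoidHom.comp ψ).ker = ψ.ker := by ext; simp
  refine ⟨(iso (T N)).toMonoidHom.comp ψ, (iso _).surjective.comp (MonoidHom.range_eq_top.1 (gen _ (fun i => ⟨_, b i⟩) fun x => ⟨_, c x⟩)),
    fun e => ?_, fun w i => ?_⟩
  · have : ⁅g (gn l0 0 1), g (gn l0 0 3) ^ N * g (gn l0 0 2) * (g (gn l0 0 3) ^ N)⁻¹⁆ ∈ φ.ker := by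
      simp only [MonoidHom.mem_ker, map_commutatorElement, map_mul, map_inv, map_zpow, hg, cm, zero_mul, map_zero]; rfl
    rw [← e, k] at this
    simp only [MonoidHom.mem_ker, map_commutatorElement, map_mul, map_inv, map_zpow, b, cm, TT] at this
    exact one_ne_zero (α := ZMod 2) (by simpa [l0] using congrArg E.c this)
  · rw [k, MonoidHom.mem_ker, MonoidHom.mem_ker, a w i, E.ext_iff, E.ext_iff]; rfl

noncomputable def pr : E l0 0 →* Q where
  toFun x := ⟨x.v, (), x.n⟩
  map_one' := rfl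
  map_mul' _ _ := rfl

end Pool.Agent.H.MP_f5330b_al
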